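import Mathlib
import Pool.Graph.R_seed8.H212R2.KLS.T1

/-!
# Pairwise touching homothets: the volume argument

`y k` (weights `τ k > 0`, within a factor three of each other) in a `d`-dimensional space, such that for
any two indices there is a pair of parallel hyperplanes of the lifted space which contain the two lifted
points and between which all the lifted points (and, by symmetry, their negatives) lie.
Then there are at most `2 ^ d` of them.
-/

set_option autoImplicit false

open MeasureTheory Set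
open scoped ENNReal

namespace Pool.Agent.Helper93.BP

variable {E : Type*} [NormedAddCommGroup E] [NormedSpace ℝ E] [FiniteDimensional ℝ E]
    [MeasurableSpace E] [BorelSpace E]

/-- the section at height `s` -/
def Q {n : ℕ} (g : Fin n → Fin n → E →L[ℝ] ℝ) (v : Fin n → Fin n → ℝ) (M : ℝ) (s : ℝ) : Set E :=
  {y | (∀ i j, i ≠ j → |g i j y - v i j * s| ≤ 1) ∧ ‖y‖ ≤ M}

omit [FiniteDimensional ℝ E] [MeasurableSpace E] [BorelSpace E] in
theorem Q_closed {n : ℕ} (g : Fin n → Fin n → E →L[ℝ] ℝ) (v : Fin n → Fin n → ℝ) (M s : ℝ) :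
    IsClosed (Q g v M s) := by
  have : Q g v M s = (⋂ i, ⋂ j, ⋂ (_ : i ≠ j), {y | |g i j y - v i j * s| ≤ 1}) ∩ {y | ‖y‖ ≤ M} := by
    ext y
    simp [Q]
  rw [this]
  refine IsClosed.inter ?_ (isClosed_le continuous_norm continuous_const)
  refine isClosed_iInter fun i => isClosed_iInter fun j => isClosed_iInter fun _ => ?_
  exact isClosed_le (by fun_prop) continuous_const

omit [FiniteDimensional ℝ E] [MeasurableSpace E] [BorelSpace E] in
theorem Q_comb {n : ℕ} (g : Fin n → Fin n → E →L[ℝ] ℝ) (v : Fin n → Fin n → ℝ) (M s s' l : ℝ)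
    (hl0 : 0 ≤ l) (hl1 : l ≤ 1) {a b : E} (ha : a ∈ Q g v M s) (hb : b ∈ Q g v M s') :
    (1 - l) • a + l • b ∈ Q g v M ((1 - l) * s + l * s') := by
  have h1l : 0 ≤ 1 - l := by linarith
  refine ⟨fun i j hij => ?_, ?_⟩
  · have h1 := abs_le.1 (ha.1 i j hij)
    have h2 := abs_le.1 (hb.1 i j hij)
    rw [abs_le]
    simp only [map_add, map_smul, smul_eq_mul]
    constructor <;> nlinarith [h1.1, h1.2, h2.1, h2.2]
  · have h1 := ha.2
    have h2 := hb.2
    calc ‖(1 - l) • a + l • b‖ ≤ ‖(1 - l) • a‖ + ‖l • b‖ := norm_add_le _ _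
      _ = (1 - l) * ‖a‖ + l * ‖b‖ := by
        rw [norm_smul, norm_smul, Real.norm_of_nonneg h1l, Real.norm_of_nonneg hl0]
      _ ≤ (1 - l) * M + l * M := by gcongr
      _ = M := by ring

omit [FiniteDimensional ℝ E] [MeasurableSpace E] [BorelSpace E] in
theorem Q_neg {n : ℕ} (g : Fin n → Fin n → E →L[ℝ] ℝ) (v : Fin n → Fin n → ℝ) (M s : ℝ) :
    Q g v M (-s) = (fun y => -y) ⁻¹' Q g v M s := by
  ext y
  simp only [Q, mem_ofPred_eq, mem_preimage, map_neg, norm_neg]
  constructor
  · rintro ⟨h1, h2⟩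
    refine ⟨fun i j hij => ?_, h2⟩
    have := h1 i j hij
    rw [← abs_neg] at this
    convert this using 2
    ring
  · rintro ⟨h1, h2⟩
    refine ⟨fun i j hij => ?_, h2⟩
    have := h1 i j hij
    rw [← abs_neg] at this
    convert this using 2
    ring

variable (ν : Measure E) [ν.IsAddHaarMeasure]

/-- central symmetry and Brunn's theorem: the sections are largest in the middle -/
theorem section_mono {n : ℕ} (g : Fin n → Fin n → E →L[ℝ] ℝ) (v : Fin n → Fin n → ℝ) (M s s' : ℝ)
    (hs : |s'| ≤ s) : ν (Q g v M s) ≤ ν (Q g v M s') := by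
  have hneg : ν (Q g v M (-s)) = ν (Q g v M s) := by
    rw [Q_neg]
    exact (Measure.measurePreserving_neg ν).measure_preimage
      (Q_closed g v M s).measurableSet.nullMeasurableSet
  have hs0 : 0 ≤ s := (abs_nonneg _).trans hs
  obtain ⟨h1, h2⟩ := abs_le.1 hs
  rcases eq_or_lt_of_le h2 with h | h2
  · rw [h]
  rcases eq_or_lt_of_le h1 with h | h1
  · rw [← h, hneg]
  have hs1 : 0 < s := by linarith
  set l := (s - s') / (2 * s) with hl
  have hl0 : 0 < l := by
    rw [hl]
    apply div_pos <;> linarith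
  have hl1 : l < 1 := by
    rw [hl, div_lt_one (by linarith)]
    linarith
  have hcomb : (1 - l) * s + l * (-s) = s' := by
    rw [hl]
    field_simp
    ring
  classical
  have hPL := Pool.Agent.H212R2.KLS.PL ν l hl0 hl1
    (indicator (Q g v M s) 1) (indicator (Q g v M (-s)) 1) (indicator (Q g v M s') 1)
    (measurable_one.indicator (Q_closed g v M s).measurableSet)
    (measurable_one.indicator (Q_closed g v M (-s)).measurableSet)
    (measurable_one.indicator (Q_closed g v M s').measurableSet) (by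
      intro x y
      by_cases hx : x ∈ Q g v M s
      · by_cases hy : y ∈ Q g v M (-s)
        · have := Q_comb g v M s (-s) l hl0.le hl1.le hx hy
          rw [hcomb] at this
          simp [hx, hy, this]
        · simp [hy, hl0]
      · have : (0 : ℝ) < 1 - l := by linarith
        simp [hx, this])
  rw [lintegral_indicator_one (Q_closed g v M s).measurableSet,
    lintegral_indicator_one (Q_closed g v M (-s)).measurableSet,
    lintegral_indicator_one (Q_closed g v M s').measurableSet, hneg] at hPL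
  refine le_trans (le_of_eq ?_) hPL
  rw [← ENNReal.rpow_add_of_nonneg _ _ (by linarith) hl0.le]
  simp

/-- an affine hyperplane is a null set -/
theorem null_hyperplane (g : E →L[ℝ] ℝ) (hg : g ≠ 0) (c : ℝ) : ν {z | g z = c} = 0 := by
  obtain ⟨w, hw⟩ : ∃ w, g w ≠ 0 := by
    by_contra h
    push Not at h
    exact hg (ContinuousLinearMap.ext h)
  set p : E := (c / g w) • w with hp
  have hgp : g p = c := by
    rw [hp, map_smul, smul_eq_mul]
    field_simp
  have h1 : {z | g z = c} = (fun z => z + (-p)) ⁻¹' ((LinearMap.ker (g : E →ₗ[ℝ] ℝ) : Submodule ℝ E) : Set E) := by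
    ext z
    simp only [mem_ofPred_eq, mem_preimage, SetLike.mem_coe, LinearMap.mem_ker,
      ContinuousLinearMap.coe_coe, map_add, map_neg, hgp]
    constructor
    · intro h
      rw [h]
      ring
    · intro h
      linarith
  rw [h1, measure_preimage_add_right]
  refine Measure.addHaar_submodule ν _ ?_
  intro h
  apply hw
  have : w ∈ (LinearMap.ker (g : E →ₗ[ℝ] ℝ)) := by
    rw [h]
    exact Submodule.mem_top
  simpa using this

include ν in
/-- the volume argument -/
theorem core {n : ℕ} (τ : Fin n → ℝ) (y : Fin n → E) (hτ : ∀ k, 0 < τ k)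
    (hτ3 : ∀ k l, τ k ≤ 3 * τ l)
    (H : ∀ i j, i ≠ j → ∃ (g : E →L[ℝ] ℝ) (v : ℝ), g (y i) - v * τ i = -1 ∧
      g (y j) - v * τ j = 1 ∧ ∀ k, |g (y k) - v * τ k| ≤ 1) :
    n ≤ 2 ^ Module.finrank ℝ E := by
  classical
  rcases Nat.eq_zero_or_pos n with hn | hn
  · subst hn
    exact Nat.zero_le _
  have : ∀ i j : Fin n, ∃ (g : E →L[ℝ] ℝ) (v : ℝ), i ≠ j → g (y i) - v * τ i = -1 ∧
      g (y j) - v * τ j = 1 ∧ ∀ k, |g (y k) - v * τ k| ≤ 1 := by
    intro i j
    by_cases hij : i = j
    · exact ⟨0, 0, fun h => absurd hij h⟩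
    · obtain ⟨g, v, h⟩ := H i j hij
      exact ⟨g, v, fun _ => h⟩
  choose g v hgv using this
  haveI : Nonempty (Fin n) := ⟨⟨0, hn⟩⟩
  set M : ℝ := 1 + ∑ k, ‖y k‖ with hM
  have hyM : ∀ k, ‖y k‖ ≤ M := by
    intro k
    have := Finset.single_le_sum (f := fun k => ‖y k‖) (fun i _ => norm_nonneg _) (Finset.mem_univ k)
    linarith
  have hM1 : 1 ≤ M := by
    have : 0 ≤ ∑ k, ‖y k‖ := Finset.sum_nonneg fun i _ => norm_nonneg _
    linarith
  have hyQ : ∀ k, y k ∈ Q g v M (τ k) := fun k => ⟨fun i j hij => (hgv i j hij).2.2 k, hyM k⟩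
  obtain ⟨m, hm⟩ := Finite.exists_max τ
  set t : ℝ := τ m / 3 with ht
  have ht0 : 0 < t := by
    rw [ht]
    have := hτ m
    positivity
  have htk : ∀ k, |2 * t - τ k| ≤ t := by
    intro k
    rw [abs_le]
    have h1 := hm k
    have h2 := hτ3 m k
    constructor <;> linarith
  -- the middle section
  set b := ν (Q g v M t) with hb
  have hbtop : b ≠ ∞ := by
    have : Q g v M t ⊆ Metric.closedBall 0 M := fun z hz => by
      simpa using hz.2
    exact ((measure_mono this).trans_lt measure_closedBall_lt_top).ne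
  have hb0 : b ≠ 0 := by
    have hopen : IsOpen ((⋂ i, ⋂ j, {z : E | i ≠ j → |g i j z - v i j * t| < 1}) ∩ {z | ‖z‖ < M}) := by
      refine IsOpen.inter ?_ (isOpen_lt continuous_norm continuous_const)
      refine isOpen_iInter_of_finite fun i => isOpen_iInter_of_finite fun j => ?_
      by_cases hij : i = j
      · simp [hij]
      · simp only [ne_eq, hij, not_false_eq_true, forall_const]
        exact isOpen_lt (by fun_prop) continuous_const
    have hne : ((⋂ i, ⋂ j, {z : E | i ≠ j → |g i j z - v i j * t| < 1}) ∩ {z | ‖z‖ < M}).Nonempty := by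
      refine ⟨(1 / 3 : ℝ) • y m, ?_, ?_⟩
      · simp only [mem_iInter, mem_ofPred_eq]
        intro i j hij
        have h1 := (hgv i j hij).2.2 m
        have h2 : g i j ((1 / 3 : ℝ) • y m) - v i j * t = (1 / 3) * (g i j (y m) - v i j * τ m) := by
          rw [map_smul, smul_eq_mul, ht]
          ring
        rw [h2, abs_mul, abs_of_pos (by norm_num : (0 : ℝ) < 1 / 3)]
        linarith
      · simp only [mem_ofPred_eq]
        rw [norm_smul, Real.norm_of_nonneg (by norm_num)]
        have := hyM m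
        linarith
    have hsub : ((⋂ i, ⋂ j, {z : E | i ≠ j → |g i j z - v i j * t| < 1}) ∩ {z | ‖z‖ < M}) ⊆
        Q g v M t := by
      rintro z ⟨h1, h2⟩
      simp only [mem_iInter, mem_ofPred_eq] at h1 h2
      exact ⟨fun i j hij => (h1 i j hij).le, h2.le⟩
    exact ((hopen.measure_pos ν hne).trans_le (measure_mono hsub)).ne'
  -- the pieces
  let A : Fin n → Set E := fun k => (fun z => (2 : ℝ) • z - y k) ⁻¹' Q g v M (2 * t - τ k)
  have hAclosed : ∀ k, IsClosed (A k) := fun k =>
    (Q_closed g v M _).preimage (by fun_prop)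
  have hAsub : ∀ k, A k ⊆ Q g v M t := by
    intro k z hz
    have h1 := Q_comb g v M (τ k) (2 * t - τ k) (1 / 2) (by norm_num) (by norm_num) (hyQ k) hz
    have e1 : (1 - (1 / 2 : ℝ)) • y k + (1 / 2 : ℝ) • ((2 : ℝ) • z - y k) = z := by
      module
    have e2 : (1 - (1 / 2 : ℝ)) * τ k + (1 / 2) * (2 * t - τ k) = t := by ring
    rw [e1, e2] at h1
    exact h1
  have hAvol : ∀ k, (ENNReal.ofReal ((2 : ℝ) ^ Module.finrank ℝ E))⁻¹ * b ≤ ν (A k) := by
    intro k
    have h1 : ν (A k) = ENNReal.ofReal |((2 : ℝ) ^ Module.finrank ℝ E)⁻¹| *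
        ν (Q g v M (2 * t - τ k)) := by
      have e : A k = (fun z => (2 : ℝ) • z) ⁻¹' ((fun z => z + (-y k)) ⁻¹' Q g v M (2 * t - τ k)) := by
        ext z
        simp [A, sub_eq_add_neg]
      rw [e, Measure.addHaar_preimage_smul ν (by norm_num), measure_preimage_add_right]
    rw [h1, abs_of_pos (by positivity), ENNReal.ofReal_inv_of_pos (by positivity)]
    gcongr
    exact section_mono ν g v M t _ (htk k)
  have hAdis : Pairwise (Function.onFun (AEDisjoint ν) A) := by
    intro i j hij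
    simp only [Function.onFun, AEDisjoint]
    have hg0 : g i j ≠ 0 := by
      intro h0
      obtain ⟨h1, h2, -⟩ := hgv i j hij
      rw [h0] at h1 h2
      simp only [zero_apply, zero_sub] at h1 h2
      have h3 := hτ i
      have h4 := hτ j
      rcases le_or_gt (v i j) 0 with h | h
      · nlinarith
      · nlinarith
    refine measure_mono_null ?_ (null_hyperplane ν (g i j) hg0 (v i j * t))
    rintro z ⟨h1, h2⟩
    simp only [mem_ofPred_eq]
    obtain ⟨h3, h4, -⟩ := hgv i j hij
    have h5 := abs_le.1 (h1.1 i j hij)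
    have h6 := abs_le.1 (h2.1 i j hij)
    simp only [map_sub, map_smul, smul_eq_mul] at h5 h6
    nlinarith [h5.1, h5.2, h6.1, h6.2]
  have hsum : ∑ k, ν (A k) ≤ b := by
    have h1 : ν (⋃ k, A k) = ∑' k, ν (A k) :=
      measure_iUnion₀ hAdis fun k => (hAclosed k).measurableSet.nullMeasurableSet
    rw [tsum_fintype] at h1
    rw [← h1]
    exact measure_mono (iUnion_subset hAsub)
  have h2 : (n : ℝ≥0∞) * ((ENNReal.ofReal ((2 : ℝ) ^ Module.finrank ℝ E))⁻¹ * b) ≤ b := by
    refine le_trans ?_ hsum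
    have := Finset.card_nsmul_le_sum Finset.univ (fun k => ν (A k))
      ((ENNReal.ofReal ((2 : ℝ) ^ Module.finrank ℝ E))⁻¹ * b) (fun k _ => hAvol k)
    simpa [nsmul_eq_mul] using this
  rw [← mul_assoc] at h2
  have h3 : (n : ℝ≥0∞) * (ENNReal.ofReal ((2 : ℝ) ^ Module.finrank ℝ E))⁻¹ ≤ 1 := by
    by_contra hcon
    push Not at hcon
    have h4 : 1 * b < (n : ℝ≥0∞) * (ENNReal.ofReal ((2 : ℝ) ^ Module.finrank ℝ E))⁻¹ * b :=
      (ENNReal.mul_lt_mul_iff_left hb0 hbtop).2 hcon
    rw [one_mul] at h4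
    exact absurd h2 (not_le.2 h4)
  have h5 : (n : ℝ≥0∞) ≤ ENNReal.ofReal ((2 : ℝ) ^ Module.finrank ℝ E) := by
    rw [← div_eq_mul_inv] at h3
    have h6 : ENNReal.ofReal ((2 : ℝ) ^ Module.finrank ℝ E) ≠ 0 := by
      simp
    rwa [ENNReal.div_le_iff h6 ENNReal.ofReal_ne_top, one_mul] at h3
  have h7 : (n : ℝ≥0∞) ≤ ((2 ^ Module.finrank ℝ E : ℕ) : ℝ≥0∞) := by
    refine h5.trans (le_of_eq ?_)
    rw [ENNReal.ofReal_pow (by norm_num)]
    simp
  exact_mod_cast h7

end Pool.Agent.Helper93.BP
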