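import Mathlib
import Pool.Agent.Helper93.BP.Core

/-!
# Pairwise touching homothets: the separation step and the theorem
-/

set_option autoImplicit false

open MeasureTheory Set
open scoped ENNReal

namespace Pool.Agent.Helper93.BP

variable {E : Type*} [NormedAddCommGroup E] [NormedSpace ℝ E]

/-- the homothet `x + r K` -/
theorem homothet_convex {K : Set E} (hK : Convex ℝ K) (x : E) (r : ℝ) :
    Convex ℝ ((fun y => x + r • y) '' K) := by
  have : (fun y => x + r • y) '' K = (fun z => x + z) '' ((fun y => r • y) '' K) := by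
    rw [image_image]
  rw [this]
  exact (hK.smul r).translate x |> fun h => by simpa [image_smul] using h

theorem homothet_interior {K : Set E} (x : E) (r : ℝ) (hr : r ≠ 0) (h : (interior K).Nonempty) :
    (interior ((fun y => x + r • y) '' K)).Nonempty := by
  obtain ⟨w, hw⟩ := h
  have hopen : IsOpen ((fun y => x + r • y) '' interior K) := by
    have e : (fun y => x + r • y) = (Homeomorph.smulOfNeZero r hr |>.trans (Homeomorph.addLeft x) : E → E) := by
      rfl
    rw [e]
    exact (Homeomorph.isOpenMap _) _ isOpen_interior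
  exact ⟨x + r • w, interior_maximal (image_mono interior_subset) hopen ⟨w, hw, rfl⟩⟩

/-- separation of two touching members -/
theorem sep {n : ℕ} {K : Set E} (hK : Convex ℝ K) (hKc : IsCompact K) (hKi : (interior K).Nonempty)
    (hKs : ∀ y ∈ K, -y ∈ K) (r : Fin n → ℝ) (x : Fin n → E) (hr : ∀ i, 0 < r i)
    (hpair : ∀ i j, i ≠ j →
      ((fun y => x i + r i • y) '' K ∩ (fun y => x j + r j • y) '' K).Nonempty ∧
      interior ((fun y => x i + r i • y) '' K) ∩ interior ((fun y => x j + r j • y) '' K) = ∅)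
    (i j : Fin n) (hij : i ≠ j) :
    ∃ (g : E →L[ℝ] ℝ) (v : ℝ), g ((r i)⁻¹ • x i) - v * (r i)⁻¹ = -1 ∧
      g ((r j)⁻¹ • x j) - v * (r j)⁻¹ = 1 ∧ ∀ k, |g ((r k)⁻¹ • x k) - v * (r k)⁻¹| ≤ 1 := by
  set B : Fin n → Set E := fun k => (fun y => x k + r k • y) '' K with hB
  have hBconv : ∀ k, Convex ℝ (B k) := fun k => homothet_convex hK _ _
  have hBint : ∀ k, (interior (B k)).Nonempty := fun k => homothet_interior _ _ (hr k).ne' hKi
  obtain ⟨f, u, hf1, hf2⟩ := geometric_hahn_banach_open_open (hBconv i).interior isOpen_interior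
    (hBconv j).interior isOpen_interior (Set.disjoint_iff_inter_eq_empty.2 (hpair i j hij).2)
  have hcl : ∀ k, B k ⊆ closure (interior (B k)) := fun k => by
    rw [(hBconv k).closure_interior_eq_closure_of_nonempty_interior (hBint k)]
    exact subset_closure
  have hfi : ∀ a ∈ B i, f a ≤ u := by
    intro a ha
    have : closure (interior (B i)) ⊆ {z | f z ≤ u} :=
      closure_minimal (fun z hz => (hf1 z hz).le) (isClosed_le f.continuous continuous_const)
    exact this (hcl i ha)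
  have hfj : ∀ a ∈ B j, u ≤ f a := by
    intro a ha
    have : closure (interior (B j)) ⊆ {z | u ≤ f z} :=
      closure_minimal (fun z hz => (hf2 z hz).le) (isClosed_le continuous_const f.continuous)
    exact this (hcl j ha)
  -- the support value
  obtain ⟨w0, hw0⟩ := hKi
  obtain ⟨m, hmK, hm⟩ := hKc.exists_isMaxOn ⟨w0, interior_subset hw0⟩ f.continuous.continuousOn
  set h := f m with hh
  have hle : ∀ y ∈ K, f y ≤ h := fun y hy => hm hy
  have hge : ∀ y ∈ K, -h ≤ f y := fun y hy => by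
    have := hle (-y) (hKs y hy)
    rw [map_neg] at this
    linarith
  have hmem : ∀ k, ∀ y ∈ K, x k + r k • y ∈ B k := fun k y hy => ⟨y, hy, rfl⟩
  have hval : ∀ k (y : E), f (x k + r k • y) = f (x k) + r k * f y := fun k y => by
    rw [map_add, map_smul, smul_eq_mul]
  obtain ⟨⟨p, ⟨yi, hyi, hpi⟩, ⟨yj, hyj, hpj⟩⟩, -⟩ := hpair i j hij
  have hpi' : f p = f (x i) + r i * f yi := by rw [← hpi]; exact hval i yi
  have hpj' : f p = f (x j) + r j * f yj := by rw [← hpj]; exact hval j yj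
  have hpu1 : f p ≤ u := hfi p ⟨yi, hyi, hpi⟩
  have hpu2 : u ≤ f p := hfj p ⟨yj, hyj, hpj⟩
  have hri := hr i
  have hrj := hr j
  have ei : f (x i) + r i * h = u := by
    have h1 : f (x i) + r i * h ≤ u := by
      rw [hh, ← hval]
      exact hfi _ (hmem i m hmK)
    have h2 := mul_le_mul_of_nonneg_left (hle yi hyi) hri.le
    linarith
  have ej : f (x j) - r j * h = u := by
    have h1 : u ≤ f (x j) + r j * f (-m) := by
      rw [← hval]
      exact hfj _ (hmem j (-m) (hKs m hmK))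
    rw [map_neg] at h1
    have h2 := mul_le_mul_of_nonneg_left (hge yj hyj) hrj.le
    linarith
  have hpos : 0 < h := by
    obtain ⟨a, ha⟩ := hBint i
    have h1 := hf1 a ha
    obtain ⟨y, hy, rfl⟩ := interior_subset ha
    simp only at h1
    rw [hval] at h1
    have h2 := mul_le_mul_of_nonneg_left (hge y hy) hri.le
    by_contra hcon
    push Not at hcon
    nlinarith
  have hk : ∀ k, f (x k) - r k * h ≤ u ∧ u ≤ f (x k) + r k * h := by
    intro k
    have hrk := hr k
    constructor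
    · by_cases hki : k = i
      · rw [hki]
        nlinarith
      · obtain ⟨⟨p', ⟨y, hy, hp1⟩, hp2⟩, -⟩ := hpair k i hki
        have h1 := hfi p' hp2
        rw [← hp1] at h1
        simp only at h1
        rw [hval] at h1
        have h2 := mul_le_mul_of_nonneg_left (hge y hy) hrk.le
        linarith
    · by_cases hkj : k = j
      · rw [hkj]
        nlinarith
      · obtain ⟨⟨p', ⟨y, hy, hp1⟩, hp2⟩, -⟩ := hpair k j hkj
        have h1 := hfj p' hp2
        rw [← hp1] at h1
        simp only at h1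
        rw [hval] at h1
        have h2 := mul_le_mul_of_nonneg_left (hle y hy) hrk.le
        linarith
  have key : ∀ k, (h⁻¹ • f) ((r k)⁻¹ • x k) - (h⁻¹ * u) * (r k)⁻¹ =
      (f (x k) - u) / (r k * h) := by
    intro k
    have hrk := (hr k).ne'
    have hh0 := hpos.ne'
    have e : (h⁻¹ • f) ((r k)⁻¹ • x k) = h⁻¹ * f ((r k)⁻¹ • x k) := rfl
    rw [e, map_smul, smul_eq_mul]
    field_simp
  refine ⟨h⁻¹ • f, h⁻¹ * u, ?_, ?_, fun k => ?_⟩
  · rw [key, div_eq_iff (by positivity)]
    linarith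
  · rw [key, div_eq_iff (by positivity)]
    linarith
  · have hrk := hr k
    obtain ⟨h1, h2⟩ := hk k
    rw [key, abs_div, abs_of_pos (show 0 < r k * h by positivity), div_le_one (by positivity), abs_le]
    constructor <;> linarith

/-- the volume argument with respect to an arbitrary linear functional of the lifted space -/
theorem core_lin {V : Type*} [NormedAddCommGroup V] [NormedSpace ℝ V] [FiniteDimensional ℝ V]
    {n : ℕ} (q : Fin n → V) (l : V →L[ℝ] ℝ) (hl : ∀ k, 0 < l (q k))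
    (hl3 : ∀ k m, l (q k) ≤ 3 * l (q m))
    (H : ∀ i j, i ≠ j → ∃ G : V →L[ℝ] ℝ, G (q i) = -1 ∧ G (q j) = 1 ∧ ∀ k, |G (q k)| ≤ 1) :
    n ≤ 2 ^ (Module.finrank ℝ V - 1) := by
  rcases Nat.eq_zero_or_pos n with hn | hn
  · subst hn
    exact Nat.zero_le _
  set k0 : Fin n := ⟨0, hn⟩
  set w : V := (l (q k0))⁻¹ • q k0 with hw
  have hlw : l w = 1 := by
    rw [hw, map_smul, smul_eq_mul]
    exact inv_mul_cancel₀ (hl k0).ne'
  set N : Submodule ℝ V := LinearMap.ker (l : V →ₗ[ℝ] ℝ) with hN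
  have hdim : Module.finrank ℝ N = Module.finrank ℝ V - 1 := by
    have h1 := LinearMap.finrank_range_add_finrank_ker (l : V →ₗ[ℝ] ℝ)
    have h2 : LinearMap.range (l : V →ₗ[ℝ] ℝ) = ⊤ := by
      rw [LinearMap.range_eq_top]
      intro c
      exact ⟨c • w, by simp [hlw]⟩
    rw [h2, finrank_top, Module.finrank_self] at h1
    have h3 : 1 + Module.finrank ℝ N = Module.finrank ℝ V := h1
    omega
  rw [← hdim]
  letI : MeasurableSpace N := borel N
  haveI : BorelSpace N := ⟨rfl⟩
  have hmem : ∀ k, q k - l (q k) • w ∈ N := by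
    intro k
    rw [hN, LinearMap.mem_ker]
    simp [hlw]
  refine core (Measure.addHaar : Measure N) (fun k => l (q k)) (fun k => ⟨q k - l (q k) • w, hmem k⟩)
    hl hl3 ?_
  intro i j hij
  obtain ⟨G, h1, h2, h3⟩ := H i j hij
  have key : ∀ k, (G.comp N.subtypeL) ⟨q k - l (q k) • w, hmem k⟩ - (-G w) * l (q k) = G (q k) := by
    intro k
    have e : (G.comp N.subtypeL) ⟨q k - l (q k) • w, hmem k⟩ = G (q k - l (q k) • w) := rfl
    rw [e, map_sub, map_smul, smul_eq_mul]
    ring
  refine ⟨G.comp N.subtypeL, -G w, ?_, ?_, fun k => ?_⟩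
  · rw [key, h1]
  · rw [key, h2]
  · rw [key]
    exact h3 k

/-- the bound for bodies symmetric about the origin -/
theorem bound0 {n : ℕ} [FiniteDimensional ℝ E] {K : Set E} (hK : Convex ℝ K) (hKc : IsCompact K)
    (hKi : (interior K).Nonempty)
    (hKs : ∀ y ∈ K, -y ∈ K) (r : Fin n → ℝ) (x : Fin n → E) (hr : ∀ i, 0 < r i)
    (hpair : ∀ i j, i ≠ j →
      ((fun y => x i + r i • y) '' K ∩ (fun y => x j + r j • y) '' K).Nonempty ∧
      interior ((fun y => x i + r i • y) '' K) ∩ interior ((fun y => x j + r j • y) '' K) = ∅)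
    (φ : E →ₗ[ℝ] ℝ) (a : ℝ) (hφ : ∀ i, 0 < φ (x i) + a)
    (hφ3 : ∀ i j, r i * (φ (x j) + a) ≤ 3 * (r j * (φ (x i) + a))) :
    n ≤ 2 ^ Module.finrank ℝ E := by
  have hdim : Module.finrank ℝ (E × ℝ) - 1 = Module.finrank ℝ E := by
    rw [Module.finrank_prod, Module.finrank_self]
    omega
  rw [← hdim]
  set Φ : E →L[ℝ] ℝ := LinearMap.toContinuousLinearMap φ with hΦ
  have hΦφ : ∀ z, Φ z = φ z := fun z => rfl
  set l : E × ℝ →L[ℝ] ℝ := Φ.comp (ContinuousLinearMap.fst ℝ E ℝ) +
    a • ContinuousLinearMap.snd ℝ E ℝ with hl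
  have hlq : ∀ k, l ((r k)⁻¹ • x k, (r k)⁻¹) = (φ (x k) + a) / r k := by
    intro k
    have e : l ((r k)⁻¹ • x k, (r k)⁻¹) = Φ ((r k)⁻¹ • x k) + a * (r k)⁻¹ := rfl
    rw [e, map_smul, smul_eq_mul, hΦφ, div_eq_mul_inv]
    ring
  refine core_lin (fun k => ((r k)⁻¹ • x k, (r k)⁻¹)) l ?_ ?_ ?_
  · intro k
    rw [hlq]
    exact div_pos (hφ k) (hr k)
  · intro k m
    rw [hlq, hlq, ← mul_div_assoc, div_le_div_iff₀ (hr k) (hr m)]
    have := hφ3 m k
    linarith
  · intro i j hij
    obtain ⟨g, v, h1, h2, h3⟩ := sep hK hKc hKi hKs r x hr hpair i j hij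
    set G : E × ℝ →L[ℝ] ℝ := g.comp (ContinuousLinearMap.fst ℝ E ℝ) -
      v • ContinuousLinearMap.snd ℝ E ℝ with hG
    have hGq : ∀ k, G ((r k)⁻¹ • x k, (r k)⁻¹) = g ((r k)⁻¹ • x k) - v * (r k)⁻¹ := fun k => rfl
    refine ⟨G, ?_, ?_, fun k => ?_⟩
    · rw [hGq, h1]
    · rw [hGq, h2]
    · rw [hGq]
      exact h3 k

/-- the bound for bodies symmetric about a point -/
theorem bound {n : ℕ} [FiniteDimensional ℝ E] {K : Set E} (hK : Convex ℝ K) (hKc : IsCompact K)
    (hKi : (interior K).Nonempty) (c : E)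
    (hKs : ∀ y ∈ K, (2 : ℝ) • c - y ∈ K) (r : Fin n → ℝ) (x : Fin n → E) (hr : ∀ i, 0 < r i)
    (hpair : ∀ i j, i ≠ j →
      ((fun y => x i + r i • y) '' K ∩ (fun y => x j + r j • y) '' K).Nonempty ∧
      interior ((fun y => x i + r i • y) '' K) ∩ interior ((fun y => x j + r j • y) '' K) = ∅)
    (φ : E →ₗ[ℝ] ℝ) (a : ℝ) (hφ : ∀ i, 0 < φ (x i + r i • c) + a)
    (hφ3 : ∀ i j, r i * (φ (x j + r j • c) + a) ≤ 3 * (r j * (φ (x i + r i • c) + a))) :
    n ≤ 2 ^ Module.finrank ℝ E := by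
  set K' : Set E := (fun y => -c + (1 : ℝ) • y) '' K with hK'
  have hfam : ∀ i, (fun y => (x i + r i • c) + r i • y) '' K' = (fun y => x i + r i • y) '' K := by
    intro i
    rw [hK', image_image]
    congr 1
    ext y
    module
  refine bound0 (K := K') (homothet_convex hK _ _) ?_ (homothet_interior _ _ one_ne_zero hKi) ?_ r
    (fun i => x i + r i • c) hr ?_ φ a hφ hφ3
  · exact hKc.image (by fun_prop)
  · rintro _ ⟨y, hy, rfl⟩
    refine ⟨(2 : ℝ) • c - y, hKs y hy, ?_⟩
    simp only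
    module
  · intro i j hij
    rw [hfam i, hfam j]
    exact hpair i j hij

end Pool.Agent.Helper93.BP
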