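import Mathlib
import Pool.Agent.Helper93.BP.Sep

/-!
# Pairwise touching homothets of an arbitrary convex body: nearly equal sizes
-/

set_option autoImplicit false

open MeasureTheory Set
open scoped ENNReal

namespace Pool.Agent.Helper93.BP

section core

variable {E : Type*} [NormedAddCommGroup E] [NormedSpace ℝ E] [FiniteDimensional ℝ E]
    [MeasurableSpace E] [BorelSpace E]

/-- the section at height `s` -/
def P {n : ℕ} (g : Fin n → Fin n → E →L[ℝ] ℝ) (v α β : Fin n → Fin n → ℝ) (M : ℝ) (s : ℝ) : Set E :=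
  {y | (∀ i j, i ≠ j → -α i j ≤ g i j y - v i j * s ∧ g i j y - v i j * s ≤ β i j) ∧ ‖y‖ ≤ M}

omit [FiniteDimensional ℝ E] [MeasurableSpace E] [BorelSpace E] in
theorem P_closed {n : ℕ} (g : Fin n → Fin n → E →L[ℝ] ℝ) (v α β : Fin n → Fin n → ℝ) (M s : ℝ) :
    IsClosed (P g v α β M s) := by
  have : P g v α β M s = (⋂ i, ⋂ j, ⋂ (_ : i ≠ j), {y | -α i j ≤ g i j y - v i j * s} ∩
      {y | g i j y - v i j * s ≤ β i j}) ∩ {y | ‖y‖ ≤ M} := by
    ext y
    simp [P]
  rw [this]
  refine IsClosed.inter ?_ (isClosed_le continuous_norm continuous_const)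
  refine isClosed_iInter fun i => isClosed_iInter fun j => isClosed_iInter fun _ => ?_
  exact (isClosed_le continuous_const (by fun_prop)).inter (isClosed_le (by fun_prop) continuous_const)

omit [FiniteDimensional ℝ E] [MeasurableSpace E] [BorelSpace E] in
theorem P_comb {n : ℕ} (g : Fin n → Fin n → E →L[ℝ] ℝ) (v α β : Fin n → Fin n → ℝ) (M s s' l : ℝ)
    (hl0 : 0 ≤ l) (hl1 : l ≤ 1) {a b : E} (ha : a ∈ P g v α β M s) (hb : b ∈ P g v α β M s') :
    (1 - l) • a + l • b ∈ P g v α β M ((1 - l) * s + l * s') := by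
  have h1l : 0 ≤ 1 - l := by linarith
  refine ⟨fun i j hij => ?_, ?_⟩
  · have h1 := ha.1 i j hij
    have h2 := hb.1 i j hij
    simp only [map_add, map_smul, smul_eq_mul]
    constructor <;> nlinarith [h1.1, h1.2, h2.1, h2.2]
  · have h1 := ha.2
    have h2 := hb.2
    calc ‖(1 - l) • a + l • b‖ ≤ ‖(1 - l) • a‖ + ‖l • b‖ := norm_add_le _ _
      _ = (1 - l) * ‖a‖ + l * ‖b‖ := by
        rw [norm_smul, norm_smul, Real.norm_of_nonneg h1l, Real.norm_of_nonneg hl0]
      _ ≤ (1 - l) * M + l * M := by gcongr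
      _ = M := by ring

variable (ν : Measure E) [ν.IsAddHaarMeasure]

include ν in
/-- the volume argument -/
theorem coreG {n : ℕ} (τ : Fin n → ℝ) (y : Fin n → E) (hτ : ∀ k, 0 < τ k) (R : ℝ) (hR : R < 2)
    (hτR : ∀ k l, τ k ≤ R * τ l)
    (H : ∀ i j, i ≠ j → ∃ (g : E →L[ℝ] ℝ) (v α β : ℝ), 0 ≤ α ∧ 0 ≤ β ∧ 0 < α + β ∧
      g (y i) - v * τ i = -α ∧ g (y j) - v * τ j = β ∧
      ∀ k, -α ≤ g (y k) - v * τ k ∧ g (y k) - v * τ k ≤ β) :
    (n : ℝ) * (2 - R) ^ Module.finrank ℝ E ≤ 2 ^ Module.finrank ℝ E := by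
  classical
  rcases Nat.eq_zero_or_pos n with hn | hn
  · subst hn
    simp
  have : ∀ i j : Fin n, ∃ (g : E →L[ℝ] ℝ) (v α β : ℝ), i ≠ j → 0 ≤ α ∧ 0 ≤ β ∧ 0 < α + β ∧
      g (y i) - v * τ i = -α ∧ g (y j) - v * τ j = β ∧
      ∀ k, -α ≤ g (y k) - v * τ k ∧ g (y k) - v * τ k ≤ β := by
    intro i j
    by_cases hij : i = j
    · exact ⟨0, 0, 0, 0, fun h => absurd hij h⟩
    · obtain ⟨g, v, α, β, h⟩ := H i j hij
      exact ⟨g, v, α, β, fun _ => h⟩
  choose g v α β hgv using this
  have : Nonempty (Fin n) := ⟨⟨0, hn⟩⟩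
  set M : ℝ := 1 + ∑ k, ‖y k‖ with hM
  have hyM : ∀ k, ‖y k‖ ≤ M := by
    intro k
    have := Finset.single_le_sum (f := fun k => ‖y k‖) (fun i _ => norm_nonneg _) (Finset.mem_univ k)
    linarith
  have hM1 : 1 ≤ M := by
    have : 0 ≤ ∑ k, ‖y k‖ := Finset.sum_nonneg fun i _ => norm_nonneg _
    linarith
  have hyQ : ∀ k, y k ∈ P g v α β M (τ k) := fun k =>
    ⟨fun i j hij => (hgv i j hij).2.2.2.2.2 k, hyM k⟩
  have h0Q : (0 : E) ∈ P g v α β M 0 := by
    refine ⟨fun i j hij => ?_, by simp; linarith⟩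
    have h1 := (hgv i j hij).1
    have h2 := (hgv i j hij).2.1
    simp only [map_zero, mul_zero, sub_zero]
    exact ⟨by linarith, h2⟩
  obtain ⟨m, hm⟩ := Finite.exists_min τ
  set t : ℝ := τ m with ht
  have ht0 : 0 < t := hτ m
  have hR0 : 0 < 2 - R := by linarith
  -- the middle section
  set b := ν (P g v α β M t) with hb
  have hbtop : b ≠ ∞ := by
    have : P g v α β M t ⊆ Metric.closedBall 0 M := fun z hz => by
      simpa using hz.2
    exact ((measure_mono this).trans_lt measure_closedBall_lt_top).ne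
  -- the average
  set w : E := ∑ k, y k with hw
  set T : ℝ := ∑ k, τ k with hT
  have hn0 : (0 : ℝ) < n := by exact_mod_cast hn
  have htT : t ≤ T := by
    have h1 : τ m ≤ ∑ k, τ k :=
      Finset.single_le_sum (f := τ) (fun i _ => (hτ i).le) (Finset.mem_univ m)
    exact h1
  have hT0 : 0 < T := lt_of_lt_of_le ht0 htT
  have hnt : n * t ≤ T := by
    have : ∑ _k : Fin n, t ≤ ∑ k, τ k := Finset.sum_le_sum fun k _ => hm k
    simpa using this
  have hb0 : b ≠ 0 := by
    have hopen : IsOpen ((⋂ i, ⋂ j, {z : E | i ≠ j → -α i j < g i j z - v i j * t ∧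
        g i j z - v i j * t < β i j}) ∩ {z | ‖z‖ < M}) := by
      refine IsOpen.inter ?_ (isOpen_lt continuous_norm continuous_const)
      refine isOpen_iInter_of_finite fun i => isOpen_iInter_of_finite fun j => ?_
      by_cases hij : i = j
      · simp [hij]
      · simp only [ne_eq, hij, not_false_eq_true, forall_const]
        have o1 : IsOpen {z : E | -α i j < g i j z - v i j * t} :=
          isOpen_lt continuous_const (by fun_prop)
        have o2 : IsOpen {z : E | g i j z - v i j * t < β i j} :=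
          isOpen_lt (by fun_prop) continuous_const
        exact o1.inter o2
    have hne : ((⋂ i, ⋂ j, {z : E | i ≠ j → -α i j < g i j z - v i j * t ∧
        g i j z - v i j * t < β i j}) ∩ {z | ‖z‖ < M}).Nonempty := by
      refine ⟨(t / T) • w, ?_, ?_⟩
      · simp only [mem_iInter, mem_ofPred_eq]
        intro i j hij
        obtain ⟨ha0, hb0, hab, hi, hj, hk⟩ := hgv i j hij
        have e1 : g i j ((t / T) • w) - v i j * t = (t / T) * (∑ k, (g i j (y k) - v i j * τ k)) := by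
          rw [map_smul, smul_eq_mul, hw, map_sum, Finset.sum_sub_distrib, ← Finset.mul_sum, ← hT]
          field_simp
        have hlow : -(n * α i j) < ∑ k, (g i j (y k) - v i j * τ k) := by
          have : ∑ _k : Fin n, (-α i j) < ∑ k, (g i j (y k) - v i j * τ k) :=
            Finset.sum_lt_sum (fun k _ => (hk k).1) ⟨j, Finset.mem_univ _, by rw [hj]; linarith⟩
          simpa using this
        have hupp : ∑ k, (g i j (y k) - v i j * τ k) < n * β i j := by
          have : ∑ k, (g i j (y k) - v i j * τ k) < ∑ _k : Fin n, β i j :=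
            Finset.sum_lt_sum (fun k _ => (hk k).2) ⟨i, Finset.mem_univ _, by rw [hi]; linarith⟩
          simpa using this
        rw [e1]
        have hq : 0 < t / T := div_pos ht0 hT0
        have hq1 : t / T * n ≤ 1 := by
          rw [div_mul_eq_mul_div, div_le_one hT0]
          linarith
        constructor
        · have := mul_lt_mul_of_pos_left hlow hq
          nlinarith
        · have := mul_lt_mul_of_pos_left hupp hq
          nlinarith
      · simp only [mem_ofPred_eq]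
        have hq : 0 < t / T := div_pos ht0 hT0
        have hq1 : t / T ≤ 1 := (div_le_one hT0).2 htT
        rw [norm_smul, Real.norm_of_nonneg hq.le]
        have h1 : ‖w‖ ≤ ∑ k, ‖y k‖ := norm_sum_le _ _
        have h2 : t / T * ‖w‖ ≤ 1 * ‖w‖ := mul_le_mul_of_nonneg_right hq1 (norm_nonneg _)
        linarith
    have hsub : ((⋂ i, ⋂ j, {z : E | i ≠ j → -α i j < g i j z - v i j * t ∧
        g i j z - v i j * t < β i j}) ∩ {z | ‖z‖ < M}) ⊆ P g v α β M t := by
      rintro z ⟨h1, h2⟩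
      simp only [mem_iInter, mem_ofPred_eq] at h1 h2
      exact ⟨fun i j hij => ⟨(h1 i j hij).1.le, (h1 i j hij).2.le⟩, h2.le⟩
    exact ((hopen.measure_pos ν hne).trans_le (measure_mono hsub)).ne'
  -- the pieces
  set lam : ℝ := 2 - R with hlam
  have hlk : ∀ k, lam * t ≤ 2 * t - τ k := by
    intro k
    have := hτR k m
    rw [hlam]
    nlinarith
  have hlam1 : lam ≤ 1 := by
    have := hlk m
    rw [← ht] at this
    by_contra hc
    push Not at hc
    nlinarith
  let A : Fin n → Set E := fun k => (fun z => ((2 * t - τ k) / t)⁻¹ • ((2 : ℝ) • z - y k)) ⁻¹' P g v α β M t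
  have hlkpos : ∀ k, 0 < (2 * t - τ k) / t := fun k =>
    div_pos (lt_of_lt_of_le (mul_pos hR0 ht0) (hlk k)) ht0
  have hlk1 : ∀ k, (2 * t - τ k) / t ≤ 1 := fun k => by
    rw [div_le_one ht0]
    have := hm k
    linarith
  have hAclosed : ∀ k, IsClosed (A k) := fun k =>
    (P_closed g v α β M _).preimage (by fun_prop)
  have hAmem : ∀ k, ∀ z ∈ A k, (2 : ℝ) • z - y k ∈ P g v α β M (2 * t - τ k) := by
    intro k z hz
    have h1 := P_comb g v α β M 0 t ((2 * t - τ k) / t) (hlkpos k).le (hlk1 k) h0Q hz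
    rw [smul_zero, zero_add, smul_inv_smul₀ (hlkpos k).ne', mul_zero, zero_add,
      div_mul_cancel₀ _ ht0.ne'] at h1
    exact h1
  have hAsub : ∀ k, A k ⊆ P g v α β M t := by
    intro k z hz
    have h1 := P_comb g v α β M (τ k) (2 * t - τ k) (1 / 2) (by norm_num) (by norm_num) (hyQ k)
      (hAmem k z hz)
    have e1 : (1 - (1 / 2 : ℝ)) • y k + (1 / 2 : ℝ) • ((2 : ℝ) • z - y k) = z := by
      module
    have e2 : (1 - (1 / 2 : ℝ)) * τ k + (1 / 2) * (2 * t - τ k) = t := by ring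
    rw [e1, e2] at h1
    exact h1
  have hAvol : ∀ k, ENNReal.ofReal ((lam / 2) ^ Module.finrank ℝ E) * b ≤ ν (A k) := by
    intro k
    have hne : ((2 * t - τ k) / t)⁻¹ * 2 ≠ 0 := by
      have := hlkpos k
      positivity
    have h1 : ν (A k) = ENNReal.ofReal |(((((2 * t - τ k) / t)⁻¹ * 2)) ^ Module.finrank ℝ E)⁻¹| * b := by
      have e : A k = (fun z => (((2 * t - τ k) / t)⁻¹ * 2) • z) ⁻¹'
          ((fun z => z + (-(((2 * t - τ k) / t)⁻¹ • y k))) ⁻¹' P g v α β M t) := by
        ext z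
        simp only [A, mem_preimage]
        rw [smul_sub, smul_smul, sub_eq_add_neg]
      rw [e, Measure.addHaar_preimage_smul ν hne, measure_preimage_add_right]
    rw [h1, abs_of_pos (by have := hlkpos k; positivity)]
    gcongr
    rw [← inv_pow]
    refine pow_le_pow_left₀ (by positivity) ?_ _
    rw [mul_inv, inv_inv, div_eq_mul_inv]
    have : lam ≤ (2 * t - τ k) / t := by
      rw [le_div_iff₀ ht0]
      exact hlk k
    gcongr
  have hAdis : Pairwise (Function.onFun (AEDisjoint ν) A) := by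
    intro i j hij
    simp only [Function.onFun, AEDisjoint]
    obtain ⟨ha0, hb0, hab, h3, h4, -⟩ := hgv i j hij
    have hg0 : g i j ≠ 0 := by
      intro h0
      rw [h0] at h3 h4
      simp only [zero_apply, zero_sub] at h3 h4
      have h5 := hτ i
      have h6 := hτ j
      rcases lt_trichotomy (v i j) 0 with h | h | h
      · nlinarith
      · rw [h] at h3 h4
        linarith
      · nlinarith
    refine measure_mono_null ?_ (null_hyperplane ν (g i j) hg0 (v i j * t + (β i j - α i j) / 2))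
    rintro z ⟨h1, h2⟩
    simp only [mem_ofPred_eq]
    have h5 := (hAmem i z h1).1 i j hij
    have h6 := (hAmem j z h2).1 i j hij
    simp only [map_sub, map_smul, smul_eq_mul] at h5 h6
    linarith [h5.1, h5.2, h6.1, h6.2]
  have hsum : ∑ k, ν (A k) ≤ b := by
    have h1 : ν (⋃ k, A k) = ∑' k, ν (A k) :=
      measure_iUnion₀ hAdis fun k => (hAclosed k).measurableSet.nullMeasurableSet
    rw [tsum_fintype] at h1
    rw [← h1]
    exact measure_mono (iUnion_subset hAsub)
  have h2 : (n : ℝ≥0∞) * (ENNReal.ofReal ((lam / 2) ^ Module.finrank ℝ E) * b) ≤ b := by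
    refine le_trans ?_ hsum
    have := Finset.card_nsmul_le_sum Finset.univ (fun k => ν (A k))
      (ENNReal.ofReal ((lam / 2) ^ Module.finrank ℝ E) * b) (fun k _ => hAvol k)
    simpa [nsmul_eq_mul] using this
  rw [← mul_assoc] at h2
  have h3 : (n : ℝ≥0∞) * ENNReal.ofReal ((lam / 2) ^ Module.finrank ℝ E) ≤ 1 := by
    by_contra hcon
    push Not at hcon
    have h4 : 1 * b < (n : ℝ≥0∞) * ENNReal.ofReal ((lam / 2) ^ Module.finrank ℝ E) * b :=
      (ENNReal.mul_lt_mul_iff_left hb0 hbtop).2 hcon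
    rw [one_mul] at h4
    exact absurd h2 (not_le.2 h4)
  have h5 : (n : ℝ) * (lam / 2) ^ Module.finrank ℝ E ≤ 1 := by
    have h6 : ENNReal.ofReal ((n : ℝ) * (lam / 2) ^ Module.finrank ℝ E) ≤ ENNReal.ofReal 1 := by
      rw [ENNReal.ofReal_mul hn0.le, ENNReal.ofReal_natCast, ENNReal.ofReal_one]
      exact h3
    exact (ENNReal.ofReal_le_ofReal_iff zero_le_one).1 h6
  rw [div_pow, ← mul_div_assoc, div_le_one (by positivity)] at h5
  exact h5

end core

/-- the volume argument with respect to an arbitrary linear functional of the lifted space -/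
theorem coreG_lin {V : Type*} [NormedAddCommGroup V] [NormedSpace ℝ V] [FiniteDimensional ℝ V]
    {n : ℕ} (q : Fin n → V) (l : V →L[ℝ] ℝ) (hl : ∀ k, 0 < l (q k)) (R : ℝ) (hR : R < 2)
    (hlR : ∀ k m, l (q k) ≤ R * l (q m))
    (H : ∀ i j, i ≠ j → ∃ (G : V →L[ℝ] ℝ) (α β : ℝ), 0 ≤ α ∧ 0 ≤ β ∧ 0 < α + β ∧ G (q i) = -α ∧
      G (q j) = β ∧ ∀ k, -α ≤ G (q k) ∧ G (q k) ≤ β) :
    (n : ℝ) * (2 - R) ^ (Module.finrank ℝ V - 1) ≤ 2 ^ (Module.finrank ℝ V - 1) := by
  rcases Nat.eq_zero_or_pos n with hn | hn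
  · subst hn
    simp
  set k0 : Fin n := ⟨0, hn⟩
  set w : V := (l (q k0))⁻¹ • q k0 with hw
  have hlw : l w = 1 := by
    rw [hw, map_smul, smul_eq_mul]
    exact inv_mul_cancel₀ (hl k0).ne'
  set N : Submodule ℝ V := LinearMap.ker (l : V →ₗ[ℝ] ℝ) with hN
  have hdim : Module.finrank ℝ N = Module.finrank ℝ V - 1 := by
    have h1 := LinearMap.finrank_range_add_finrank_ker (l : V →ₗ[ℝ] ℝ)
    have h2 : LinearMap.range (l : V →ₗ[ℝ] ℝ) = ⊤ := by
      rw [LinearMap.range_eq_top]
      intro c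
      exact ⟨c • w, by simp [hlw]⟩
    rw [h2, finrank_top, Module.finrank_self] at h1
    have h3 : 1 + Module.finrank ℝ N = Module.finrank ℝ V := h1
    omega
  rw [← hdim]
  let _ : MeasurableSpace N := borel N
  have : BorelSpace N := ⟨rfl⟩
  have hmem : ∀ k, q k - l (q k) • w ∈ N := by
    intro k
    rw [hN, LinearMap.mem_ker]
    simp [hlw]
  refine coreG (Measure.addHaar : Measure N) (fun k => l (q k)) (fun k => ⟨q k - l (q k) • w, hmem k⟩)
    hl R hR hlR ?_
  intro i j hij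
  obtain ⟨G, α, β, ha, hb, hab, h1, h2, h3⟩ := H i j hij
  have key : ∀ k, (G.comp N.subtypeL) ⟨q k - l (q k) • w, hmem k⟩ - (-G w) * l (q k) = G (q k) := by
    intro k
    have e : (G.comp N.subtypeL) ⟨q k - l (q k) • w, hmem k⟩ = G (q k - l (q k) • w) := rfl
    rw [e, map_sub, map_smul, smul_eq_mul]
    ring
  refine ⟨G.comp N.subtypeL, -G w, α, β, ha, hb, hab, ?_, ?_, fun k => ?_⟩
  · rw [key, h1]
  · rw [key, h2]
  · rw [key]
    exact h3 k

variable {E : Type*} [NormedAddCommGroup E] [NormedSpace ℝ E]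

/-- separation of two touching members of a family of homothets of a body which contains the origin -/
theorem sepG {n : ℕ} {K : Set E} (hK : Convex ℝ K) (hKc : IsCompact K) (hKi : (interior K).Nonempty)
    (h0 : (0 : E) ∈ K) (r : Fin n → ℝ) (x : Fin n → E) (hr : ∀ i, 0 < r i)
    (hpair : ∀ i j, i ≠ j →
      ((fun y => x i + r i • y) '' K ∩ (fun y => x j + r j • y) '' K).Nonempty ∧
      interior ((fun y => x i + r i • y) '' K) ∩ interior ((fun y => x j + r j • y) '' K) = ∅)
    (i j : Fin n) (hij : i ≠ j) :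
    ∃ (g : E →L[ℝ] ℝ) (v α β : ℝ), 0 ≤ α ∧ 0 ≤ β ∧ 0 < α + β ∧
      g ((r i)⁻¹ • x i) - v * (r i)⁻¹ = -α ∧
      g ((r j)⁻¹ • x j) - v * (r j)⁻¹ = β ∧
      ∀ k, -α ≤ g ((r k)⁻¹ • x k) - v * (r k)⁻¹ ∧ g ((r k)⁻¹ • x k) - v * (r k)⁻¹ ≤ β := by
  set B : Fin n → Set E := fun k => (fun y => x k + r k • y) '' K with hB
  have hBconv : ∀ k, Convex ℝ (B k) := fun k => homothet_convex hK _ _
  have hBint : ∀ k, (interior (B k)).Nonempty := fun k => homothet_interior _ _ (hr k).ne' hKi
  obtain ⟨f, u, hf1, hf2⟩ := geometric_hahn_banach_open_open (hBconv i).interior isOpen_interior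
    (hBconv j).interior isOpen_interior (Set.disjoint_iff_inter_eq_empty.2 (hpair i j hij).2)
  have hcl : ∀ k, B k ⊆ closure (interior (B k)) := fun k => by
    rw [(hBconv k).closure_interior_eq_closure_of_nonempty_interior (hBint k)]
    exact subset_closure
  have hfi : ∀ a ∈ B i, f a ≤ u := by
    intro a ha
    have : closure (interior (B i)) ⊆ {z | f z ≤ u} :=
      closure_minimal (fun z hz => (hf1 z hz).le) (isClosed_le f.continuous continuous_const)
    exact this (hcl i ha)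
  have hfj : ∀ a ∈ B j, u ≤ f a := by
    intro a ha
    have : closure (interior (B j)) ⊆ {z | u ≤ f z} :=
      closure_minimal (fun z hz => (hf2 z hz).le) (isClosed_le continuous_const f.continuous)
    exact this (hcl j ha)
  -- the support values
  obtain ⟨m, hmK, hm⟩ := hKc.exists_isMaxOn ⟨0, h0⟩ f.continuous.continuousOn
  obtain ⟨m', hmK', hm'⟩ := hKc.exists_isMinOn ⟨0, h0⟩ f.continuous.continuousOn
  set h := f m with hh
  set h' := -f m' with hh'
  have hle : ∀ y ∈ K, f y ≤ h := fun y hy => hm hy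
  have hge : ∀ y ∈ K, -h' ≤ f y := fun y hy => by
    have : f m' ≤ f y := hm' hy
    linarith
  have hpos : 0 ≤ h := by
    have := hle 0 h0
    rwa [map_zero] at this
  have hpos' : 0 ≤ h' := by
    have := hge 0 h0
    rw [map_zero] at this
    linarith
  have hmem : ∀ k, ∀ y ∈ K, x k + r k • y ∈ B k := fun k y hy => ⟨y, hy, rfl⟩
  have hval : ∀ k (y : E), f (x k + r k • y) = f (x k) + r k * f y := fun k y => by
    rw [map_add, map_smul, smul_eq_mul]
  obtain ⟨⟨p, ⟨yi, hyi, hpi⟩, ⟨yj, hyj, hpj⟩⟩, -⟩ := hpair i j hij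
  have hpi' : f p = f (x i) + r i * f yi := by rw [← hpi]; exact hval i yi
  have hpj' : f p = f (x j) + r j * f yj := by rw [← hpj]; exact hval j yj
  have hpu1 : f p ≤ u := hfi p ⟨yi, hyi, hpi⟩
  have hpu2 : u ≤ f p := hfj p ⟨yj, hyj, hpj⟩
  have hri := hr i
  have hrj := hr j
  have ei : f (x i) + r i * h = u := by
    have h1 : f (x i) + r i * h ≤ u := by
      rw [hh, ← hval]
      exact hfi _ (hmem i m hmK)
    have h2 := mul_le_mul_of_nonneg_left (hle yi hyi) hri.le
    linarith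
  have ej : f (x j) - r j * h' = u := by
    have h1 : u ≤ f (x j) + r j * f m' := by
      rw [← hval]
      exact hfj _ (hmem j m' hmK')
    have h2 := mul_le_mul_of_nonneg_left (hge yj hyj) hrj.le
    have h3 : r j * h' = -(r j * f m') := by rw [hh']; ring
    linarith
  have hsum : 0 < h + h' := by
    obtain ⟨a, ha⟩ := hBint i
    have h1 := hf1 a ha
    obtain ⟨y, hy, rfl⟩ := interior_subset ha
    simp only at h1
    rw [hval] at h1
    have h2 := mul_le_mul_of_nonneg_left (hge y hy) hri.le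
    by_contra hcon
    push Not at hcon
    nlinarith
  have hk : ∀ k, f (x k) - r k * h' ≤ u ∧ u ≤ f (x k) + r k * h := by
    intro k
    have hrk := hr k
    constructor
    · by_cases hki : k = i
      · rw [hki]
        nlinarith
      · obtain ⟨⟨p', ⟨y, hy, hp1⟩, hp2⟩, -⟩ := hpair k i hki
        have h1 := hfi p' hp2
        rw [← hp1] at h1
        simp only at h1
        rw [hval] at h1
        have h2 := mul_le_mul_of_nonneg_left (hge y hy) hrk.le
        linarith
    · by_cases hkj : k = j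
      · rw [hkj]
        nlinarith
      · obtain ⟨⟨p', ⟨y, hy, hp1⟩, hp2⟩, -⟩ := hpair k j hkj
        have h1 := hfj p' hp2
        rw [← hp1] at h1
        simp only at h1
        rw [hval] at h1
        have h2 := mul_le_mul_of_nonneg_left (hle y hy) hrk.le
        linarith
  have key : ∀ k, f ((r k)⁻¹ • x k) - u * (r k)⁻¹ = (f (x k) - u) / r k := by
    intro k
    rw [map_smul, smul_eq_mul, div_eq_mul_inv]
    ring
  refine ⟨f, u, h, h', hpos, hpos', hsum, ?_, ?_, fun k => ?_⟩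
  · rw [key, div_eq_iff hri.ne']
    linarith
  · rw [key, div_eq_iff hrj.ne']
    linarith
  · have hrk := hr k
    obtain ⟨h1, h2⟩ := hk k
    rw [key, le_div_iff₀ hrk, div_le_iff₀ hrk]
    constructor <;> linarith

/-- the bound for bodies which contain the origin -/
theorem boundG0 {n : ℕ} [FiniteDimensional ℝ E] {K : Set E} (hK : Convex ℝ K) (hKc : IsCompact K)
    (hKi : (interior K).Nonempty)
    (h0 : (0 : E) ∈ K) (r : Fin n → ℝ) (x : Fin n → E) (hr : ∀ i, 0 < r i)
    (hpair : ∀ i j, i ≠ j →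
      ((fun y => x i + r i • y) '' K ∩ (fun y => x j + r j • y) '' K).Nonempty ∧
      interior ((fun y => x i + r i • y) '' K) ∩ interior ((fun y => x j + r j • y) '' K) = ∅)
    (φ : E →ₗ[ℝ] ℝ) (a : ℝ) (hφ : ∀ i, 0 < φ (x i) + a) (R : ℝ) (hR : R < 2)
    (hφR : ∀ i j, r i * (φ (x j) + a) ≤ R * (r j * (φ (x i) + a))) :
    (n : ℝ) * (2 - R) ^ Module.finrank ℝ E ≤ 2 ^ Module.finrank ℝ E := by
  have hdim : Module.finrank ℝ (E × ℝ) - 1 = Module.finrank ℝ E := by
    rw [Module.finrank_prod, Module.finrank_self]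
    omega
  rw [← hdim]
  set Φ : E →L[ℝ] ℝ := LinearMap.toContinuousLinearMap φ with hΦ
  have hΦφ : ∀ z, Φ z = φ z := fun z => rfl
  set l : E × ℝ →L[ℝ] ℝ := Φ.comp (ContinuousLinearMap.fst ℝ E ℝ) +
    a • ContinuousLinearMap.snd ℝ E ℝ with hl
  have hlq : ∀ k, l ((r k)⁻¹ • x k, (r k)⁻¹) = (φ (x k) + a) / r k := by
    intro k
    have e : l ((r k)⁻¹ • x k, (r k)⁻¹) = Φ ((r k)⁻¹ • x k) + a * (r k)⁻¹ := rfl
    rw [e, map_smul, smul_eq_mul, hΦφ, div_eq_mul_inv]
    ring
  refine coreG_lin (fun k => ((r k)⁻¹ • x k, (r k)⁻¹)) l ?_ R hR ?_ ?_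
  · intro k
    rw [hlq]
    exact div_pos (hφ k) (hr k)
  · intro k m
    rw [hlq, hlq, ← mul_div_assoc, div_le_div_iff₀ (hr k) (hr m)]
    have := hφR m k
    linarith
  · intro i j hij
    obtain ⟨g, v, α, β, ha, hb, hab, h1, h2, h3⟩ := sepG hK hKc hKi h0 r x hr hpair i j hij
    set G : E × ℝ →L[ℝ] ℝ := g.comp (ContinuousLinearMap.fst ℝ E ℝ) -
      v • ContinuousLinearMap.snd ℝ E ℝ with hG
    have hGq : ∀ k, G ((r k)⁻¹ • x k, (r k)⁻¹) = g ((r k)⁻¹ • x k) - v * (r k)⁻¹ := fun k => rfl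
    refine ⟨G, α, β, ha, hb, hab, ?_, ?_, fun k => ?_⟩
    · rw [hGq, h1]
    · rw [hGq, h2]
    · rw [hGq]
      exact h3 k

/-- the bound, with a reference point `c` of the body -/
theorem boundG {n : ℕ} [FiniteDimensional ℝ E] {K : Set E} (hK : Convex ℝ K) (hKc : IsCompact K)
    (hKi : (interior K).Nonempty) (c : E)
    (hc : c ∈ K) (r : Fin n → ℝ) (x : Fin n → E) (hr : ∀ i, 0 < r i)
    (hpair : ∀ i j, i ≠ j →
      ((fun y => x i + r i • y) '' K ∩ (fun y => x j + r j • y) '' K).Nonempty ∧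
      interior ((fun y => x i + r i • y) '' K) ∩ interior ((fun y => x j + r j • y) '' K) = ∅)
    (φ : E →ₗ[ℝ] ℝ) (a : ℝ) (hφ : ∀ i, 0 < φ (x i + r i • c) + a) (R : ℝ) (hR : R < 2)
    (hφR : ∀ i j, r i * (φ (x j + r j • c) + a) ≤ R * (r j * (φ (x i + r i • c) + a))) :
    (n : ℝ) * (2 - R) ^ Module.finrank ℝ E ≤ 2 ^ Module.finrank ℝ E := by
  set K' : Set E := (fun y => -c + (1 : ℝ) • y) '' K with hK'
  have hfam : ∀ i, (fun y => (x i + r i • c) + r i • y) '' K' = (fun y => x i + r i • y) '' K := by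
    intro i
    rw [hK', image_image]
    congr 1
    ext y
    module
  refine boundG0 (K := K') (homothet_convex hK _ _) ?_ (homothet_interior _ _ one_ne_zero hKi) ?_ r
    (fun i => x i + r i • c) hr ?_ φ a hφ R hR hφR
  · exact hKc.image (by fun_prop)
  · exact ⟨c, hc, by simp⟩
  · intro i j hij
    rw [hfam i, hfam j]
    exact hpair i j hij

end Pool.Agent.Helper93.BP
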