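import Mathlib
import Pool.Agent.Helper93.BP.Sep

/-!
# Pairwise touching homothets of a symmetric body: bounded ratios
-/

set_option autoImplicit false

open MeasureTheory Set
open scoped ENNReal

namespace Pool.Agent.Helper93.BP

section core

variable {E : Type*} [NormedAddCommGroup E] [NormedSpace ℝ E] [FiniteDimensional ℝ E]
    [MeasurableSpace E] [BorelSpace E]

variable (ν : Measure E) [ν.IsAddHaarMeasure]

include ν in
/-- the volume argument -/
theorem coreR {n : ℕ} (τ : Fin n → ℝ) (y : Fin n → E) (hτ : ∀ k, 0 < τ k) (R : ℝ) (hR : 3 ≤ R)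
    (hτR : ∀ k l, τ k ≤ R * τ l)
    (H : ∀ i j, i ≠ j → ∃ (g : E →L[ℝ] ℝ) (v : ℝ), g (y i) - v * τ i = -1 ∧
      g (y j) - v * τ j = 1 ∧ ∀ k, |g (y k) - v * τ k| ≤ 1) :
    (n : ℝ) * (R + 1) ^ Module.finrank ℝ E ≤ (3 * R - 1) ^ Module.finrank ℝ E := by
  classical
  rcases Nat.eq_zero_or_pos n with hn | hn
  · subst hn
    simp only [Nat.cast_zero, zero_mul]
    have : 0 < 3 * R - 1 := by linarith
    positivity
  have : ∀ i j : Fin n, ∃ (g : E →L[ℝ] ℝ) (v : ℝ), i ≠ j → g (y i) - v * τ i = -1 ∧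
      g (y j) - v * τ j = 1 ∧ ∀ k, |g (y k) - v * τ k| ≤ 1 := by
    intro i j
    by_cases hij : i = j
    · exact ⟨0, 0, fun h => absurd hij h⟩
    · obtain ⟨g, v, h⟩ := H i j hij
      exact ⟨g, v, fun _ => h⟩
  choose g v hgv using this
  have : Nonempty (Fin n) := ⟨⟨0, hn⟩⟩
  set M : ℝ := 1 + ∑ k, ‖y k‖ with hM
  have hyM : ∀ k, ‖y k‖ ≤ M := by
    intro k
    have := Finset.single_le_sum (f := fun k => ‖y k‖) (fun i _ => norm_nonneg _) (Finset.mem_univ k)
    linarith
  have hM1 : 1 ≤ M := by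
    have : 0 ≤ ∑ k, ‖y k‖ := Finset.sum_nonneg fun i _ => norm_nonneg _
    linarith
  have hyQ : ∀ k, y k ∈ Q g v M (τ k) := fun k => ⟨fun i j hij => (hgv i j hij).2.2 k, hyM k⟩
  obtain ⟨m, hm⟩ := Finite.exists_max τ
  set u : ℝ := (1 + 1 / R) / 4 with hu
  have hR0 : 0 < R := by linarith
  have hRi : 0 < 1 / R := by positivity
  have hRi3 : 1 / R ≤ 1 / 3 := one_div_le_one_div_of_le (by norm_num) hR
  have hu0 : 0 < u := by rw [hu]; linarith
  have hu3 : u ≤ 1 / 3 := by rw [hu]; linarith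
  set t : ℝ := u * τ m with ht
  have hτm := hτ m
  have ht0 : 0 < t := by positivity
  set σ : ℝ := (1 - 2 * u) * τ m with hσ
  have htσ : t ≤ σ := by
    rw [ht, hσ]
    nlinarith
  have htk : ∀ k, |2 * t - τ k| ≤ σ := by
    intro k
    have h1 := hm k
    have h2 : τ m / R ≤ τ k := by
      rw [div_le_iff₀ hR0]
      have := hτR m k
      linarith
    have h3 : 2 * t - τ m / R = σ := by
      rw [ht, hσ, hu]
      field_simp
      ring
    have h4 : 2 * t - τ m = -σ := by
      rw [ht, hσ]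
      ring
    rw [abs_le]
    constructor <;> linarith
  set lam : ℝ := 2 * (R + 1) / (3 * R - 1) with hlam
  have h3R : 0 < 3 * R - 1 := by linarith
  have hlam0 : 0 < lam := by
    rw [hlam]
    positivity
  have hlam1 : lam ≤ 1 := by
    rw [hlam, div_le_one h3R]
    linarith
  have hlamu : lam * (1 - u) = 2 * u := by
    have h3Rne := h3R.ne'
    have hx : R * (1 / R) = 1 := mul_one_div_cancel hR0.ne'
    rw [hlam, hu, div_mul_eq_mul_div, div_eq_iff h3Rne]
    linear_combination (-2) * hx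
  have hlamσ : (1 - (1 - lam)) * t + (1 - lam) * τ m = σ := by
    rw [ht, hσ]
    linear_combination (-(τ m)) * hlamu
  -- the middle section
  set b := ν (Q g v M t) with hb
  have hbtop : b ≠ ∞ := by
    have : Q g v M t ⊆ Metric.closedBall 0 M := fun z hz => by
      simpa using hz.2
    exact ((measure_mono this).trans_lt measure_closedBall_lt_top).ne
  have hb0 : b ≠ 0 := by
    have hopen : IsOpen ((⋂ i, ⋂ j, {z : E | i ≠ j → |g i j z - v i j * t| < 1}) ∩ {z | ‖z‖ < M}) := by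
      refine IsOpen.inter ?_ (isOpen_lt continuous_norm continuous_const)
      refine isOpen_iInter_of_finite fun i => isOpen_iInter_of_finite fun j => ?_
      by_cases hij : i = j
      · simp [hij]
      · simp only [ne_eq, hij, not_false_eq_true, forall_const]
        exact isOpen_lt (by fun_prop) continuous_const
    have hne : ((⋂ i, ⋂ j, {z : E | i ≠ j → |g i j z - v i j * t| < 1}) ∩ {z | ‖z‖ < M}).Nonempty := by
      refine ⟨u • y m, ?_, ?_⟩
      · simp only [mem_iInter, mem_ofPred_eq]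
        intro i j hij
        have h1 := (hgv i j hij).2.2 m
        have h2 : g i j (u • y m) - v i j * t = u * (g i j (y m) - v i j * τ m) := by
          rw [map_smul, smul_eq_mul, ht]
          ring
        rw [h2, abs_mul, abs_of_pos hu0]
        nlinarith
      · simp only [mem_ofPred_eq]
        rw [norm_smul, Real.norm_of_nonneg hu0.le]
        have := hyM m
        nlinarith [norm_nonneg (y m)]
    have hsub : ((⋂ i, ⋂ j, {z : E | i ≠ j → |g i j z - v i j * t| < 1}) ∩ {z | ‖z‖ < M}) ⊆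
        Q g v M t := by
      rintro z ⟨h1, h2⟩
      simp only [mem_iInter, mem_ofPred_eq] at h1 h2
      exact ⟨fun i j hij => (h1 i j hij).le, h2.le⟩
    exact ((hopen.measure_pos ν hne).trans_le (measure_mono hsub)).ne'
  -- the section at the height `σ`
  have hσvol : ENNReal.ofReal (lam ^ Module.finrank ℝ E) * b ≤ ν (Q g v M σ) := by
    have hsub : (fun z => lam⁻¹ • (z - (1 - lam) • y m)) ⁻¹' Q g v M t ⊆ Q g v M σ := by
      intro z hz
      have h1 := Q_comb g v M t (τ m) (1 - lam) (by linarith) (by linarith) hz (hyQ m)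
      rw [hlamσ] at h1
      have e1 : (1 - (1 - lam)) • (lam⁻¹ • (z - (1 - lam) • y m)) + (1 - lam) • y m = z := by
        rw [sub_sub_cancel, smul_inv_smul₀ hlam0.ne', sub_add_cancel]
      simp only at h1
      rw [e1] at h1
      exact h1
    refine le_trans (le_of_eq ?_) (measure_mono hsub)
    have e : (fun z => lam⁻¹ • (z - (1 - lam) • y m)) ⁻¹' Q g v M t =
        (fun z => lam⁻¹ • z) ⁻¹' ((fun z => z + (-(lam⁻¹ • ((1 - lam) • y m)))) ⁻¹' Q g v M t) := by
      ext z
      simp only [mem_preimage]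
      rw [smul_sub, sub_eq_add_neg]
    rw [e, Measure.addHaar_preimage_smul ν (inv_ne_zero hlam0.ne'), measure_preimage_add_right,
      inv_pow, inv_inv, abs_of_pos (by positivity)]
  -- the pieces
  let A : Fin n → Set E := fun k => (fun z => (2 : ℝ) • z - y k) ⁻¹' Q g v M (2 * t - τ k)
  have hAclosed : ∀ k, IsClosed (A k) := fun k =>
    (Q_closed g v M _).preimage (by fun_prop)
  have hAsub : ∀ k, A k ⊆ Q g v M t := by
    intro k z hz
    have h1 := Q_comb g v M (τ k) (2 * t - τ k) (1 / 2) (by norm_num) (by norm_num) (hyQ k) hz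
    have e1 : (1 - (1 / 2 : ℝ)) • y k + (1 / 2 : ℝ) • ((2 : ℝ) • z - y k) = z := by
      module
    have e2 : (1 - (1 / 2 : ℝ)) * τ k + (1 / 2) * (2 * t - τ k) = t := by ring
    rw [e1, e2] at h1
    exact h1
  have hAvol : ∀ k, ENNReal.ofReal ((lam / 2) ^ Module.finrank ℝ E) * b ≤ ν (A k) := by
    intro k
    have h1 : ν (A k) = ENNReal.ofReal |((2 : ℝ) ^ Module.finrank ℝ E)⁻¹| *
        ν (Q g v M (2 * t - τ k)) := by
      have e : A k = (fun z => (2 : ℝ) • z) ⁻¹' ((fun z => z + (-y k)) ⁻¹' Q g v M (2 * t - τ k)) := by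
        ext z
        simp [A, sub_eq_add_neg]
      rw [e, Measure.addHaar_preimage_smul ν (by norm_num), measure_preimage_add_right]
    have h2 : ENNReal.ofReal ((lam / 2) ^ Module.finrank ℝ E) =
        ENNReal.ofReal ((2 : ℝ) ^ Module.finrank ℝ E)⁻¹ * ENNReal.ofReal (lam ^ Module.finrank ℝ E) := by
      rw [← ENNReal.ofReal_mul (by positivity), div_pow]
      congr 1
      ring
    rw [h1, abs_of_pos (by positivity), h2, mul_assoc]
    gcongr
    exact hσvol.trans (section_mono ν g v M σ _ (htk k))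
  have hAdis : Pairwise (Function.onFun (AEDisjoint ν) A) := by
    intro i j hij
    simp only [Function.onFun, AEDisjoint]
    have hg0 : g i j ≠ 0 := by
      intro h0
      obtain ⟨h1, h2, -⟩ := hgv i j hij
      rw [h0] at h1 h2
      simp only [zero_apply, zero_sub] at h1 h2
      have h3 := hτ i
      have h4 := hτ j
      rcases le_or_gt (v i j) 0 with h | h
      · nlinarith
      · nlinarith
    refine measure_mono_null ?_ (null_hyperplane ν (g i j) hg0 (v i j * t))
    rintro z ⟨h1, h2⟩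
    simp only [mem_ofPred_eq]
    obtain ⟨h3, h4, -⟩ := hgv i j hij
    have h5 := abs_le.1 (h1.1 i j hij)
    have h6 := abs_le.1 (h2.1 i j hij)
    simp only [map_sub, map_smul, smul_eq_mul] at h5 h6
    nlinarith [h5.1, h5.2, h6.1, h6.2]
  have hsum : ∑ k, ν (A k) ≤ b := by
    have h1 : ν (⋃ k, A k) = ∑' k, ν (A k) :=
      measure_iUnion₀ hAdis fun k => (hAclosed k).measurableSet.nullMeasurableSet
    rw [tsum_fintype] at h1
    rw [← h1]
    exact measure_mono (iUnion_subset hAsub)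
  have h2 : (n : ℝ≥0∞) * (ENNReal.ofReal ((lam / 2) ^ Module.finrank ℝ E) * b) ≤ b := by
    refine le_trans ?_ hsum
    have := Finset.card_nsmul_le_sum Finset.univ (fun k => ν (A k))
      (ENNReal.ofReal ((lam / 2) ^ Module.finrank ℝ E) * b) (fun k _ => hAvol k)
    simpa [nsmul_eq_mul] using this
  rw [← mul_assoc] at h2
  have h3 : (n : ℝ≥0∞) * ENNReal.ofReal ((lam / 2) ^ Module.finrank ℝ E) ≤ 1 := by
    by_contra hcon
    push Not at hcon
    have h4 : 1 * b < (n : ℝ≥0∞) * ENNReal.ofReal ((lam / 2) ^ Module.finrank ℝ E) * b :=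
      (ENNReal.mul_lt_mul_iff_left hb0 hbtop).2 hcon
    rw [one_mul] at h4
    exact absurd h2 (not_le.2 h4)
  have h5 : (n : ℝ) * (lam / 2) ^ Module.finrank ℝ E ≤ 1 := by
    have h6 : ENNReal.ofReal ((n : ℝ) * (lam / 2) ^ Module.finrank ℝ E) ≤ ENNReal.ofReal 1 := by
      rw [ENNReal.ofReal_mul (Nat.cast_nonneg n), ENNReal.ofReal_natCast, ENNReal.ofReal_one]
      exact h3
    exact (ENNReal.ofReal_le_ofReal_iff zero_le_one).1 h6
  have h7 : lam / 2 = (R + 1) / (3 * R - 1) := by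
    rw [hlam]
    ring
  rw [h7, div_pow, ← mul_div_assoc, div_le_one (by positivity)] at h5
  exact h5

end core

variable {E : Type*} [NormedAddCommGroup E] [NormedSpace ℝ E]

/-- the volume argument with respect to an arbitrary linear functional of the lifted space -/
theorem coreR_lin {V : Type*} [NormedAddCommGroup V] [NormedSpace ℝ V] [FiniteDimensional ℝ V]
    {n : ℕ} (q : Fin n → V) (l : V →L[ℝ] ℝ) (hl : ∀ k, 0 < l (q k))
    (R : ℝ) (hR : 3 ≤ R) (hl3 : ∀ k m, l (q k) ≤ R * l (q m))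
    (H : ∀ i j, i ≠ j → ∃ G : V →L[ℝ] ℝ, G (q i) = -1 ∧ G (q j) = 1 ∧ ∀ k, |G (q k)| ≤ 1) :
    (n : ℝ) * (R + 1) ^ (Module.finrank ℝ V - 1) ≤ (3 * R - 1) ^ (Module.finrank ℝ V - 1) := by
  rcases Nat.eq_zero_or_pos n with hn | hn
  · subst hn
    simp only [Nat.cast_zero, zero_mul]
    have : 0 < 3 * R - 1 := by linarith
    positivity
  set k0 : Fin n := ⟨0, hn⟩
  set w : V := (l (q k0))⁻¹ • q k0 with hw
  have hlw : l w = 1 := by
    rw [hw, map_smul, smul_eq_mul]
    exact inv_mul_cancel₀ (hl k0).ne'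
  set N : Submodule ℝ V := LinearMap.ker (l : V →ₗ[ℝ] ℝ) with hN
  have hdim : Module.finrank ℝ N = Module.finrank ℝ V - 1 := by
    have h1 := LinearMap.finrank_range_add_finrank_ker (l : V →ₗ[ℝ] ℝ)
    have h2 : LinearMap.range (l : V →ₗ[ℝ] ℝ) = ⊤ := by
      rw [LinearMap.range_eq_top]
      intro c
      exact ⟨c • w, by simp [hlw]⟩
    rw [h2, finrank_top, Module.finrank_self] at h1
    have h3 : 1 + Module.finrank ℝ N = Module.finrank ℝ V := h1
    omega
  rw [← hdim]
  let _ : MeasurableSpace N := borel N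
  have : BorelSpace N := ⟨rfl⟩
  have hmem : ∀ k, q k - l (q k) • w ∈ N := by
    intro k
    rw [hN, LinearMap.mem_ker]
    simp [hlw]
  refine coreR (Measure.addHaar : Measure N) (fun k => l (q k)) (fun k => ⟨q k - l (q k) • w, hmem k⟩)
    hl R hR hl3 ?_
  intro i j hij
  obtain ⟨G, h1, h2, h3⟩ := H i j hij
  have key : ∀ k, (G.comp N.subtypeL) ⟨q k - l (q k) • w, hmem k⟩ - (-G w) * l (q k) = G (q k) := by
    intro k
    have e : (G.comp N.subtypeL) ⟨q k - l (q k) • w, hmem k⟩ = G (q k - l (q k) • w) := rfl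
    rw [e, map_sub, map_smul, smul_eq_mul]
    ring
  refine ⟨G.comp N.subtypeL, -G w, ?_, ?_, fun k => ?_⟩
  · rw [key, h1]
  · rw [key, h2]
  · rw [key]
    exact h3 k

/-- the bound for bodies symmetric about the origin -/
theorem boundR0 {n : ℕ} [FiniteDimensional ℝ E] {K : Set E} (hK : Convex ℝ K) (hKc : IsCompact K)
    (hKi : (interior K).Nonempty)
    (hKs : ∀ y ∈ K, -y ∈ K) (r : Fin n → ℝ) (x : Fin n → E) (hr : ∀ i, 0 < r i)
    (hpair : ∀ i j, i ≠ j →
      ((fun y => x i + r i • y) '' K ∩ (fun y => x j + r j • y) '' K).Nonempty ∧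
      interior ((fun y => x i + r i • y) '' K) ∩ interior ((fun y => x j + r j • y) '' K) = ∅)
    (φ : E →ₗ[ℝ] ℝ) (a : ℝ) (hφ : ∀ i, 0 < φ (x i) + a) (R : ℝ) (hR : 3 ≤ R)
    (hφ3 : ∀ i j, r i * (φ (x j) + a) ≤ R * (r j * (φ (x i) + a))) :
    (n : ℝ) * (R + 1) ^ Module.finrank ℝ E ≤ (3 * R - 1) ^ Module.finrank ℝ E := by
  have hdim : Module.finrank ℝ (E × ℝ) - 1 = Module.finrank ℝ E := by
    rw [Module.finrank_prod, Module.finrank_self]
    omega
  rw [← hdim]
  set Φ : E →L[ℝ] ℝ := LinearMap.toContinuousLinearMap φ with hΦ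
  have hΦφ : ∀ z, Φ z = φ z := fun z => rfl
  set l : E × ℝ →L[ℝ] ℝ := Φ.comp (ContinuousLinearMap.fst ℝ E ℝ) +
    a • ContinuousLinearMap.snd ℝ E ℝ with hl
  have hlq : ∀ k, l ((r k)⁻¹ • x k, (r k)⁻¹) = (φ (x k) + a) / r k := by
    intro k
    have e : l ((r k)⁻¹ • x k, (r k)⁻¹) = Φ ((r k)⁻¹ • x k) + a * (r k)⁻¹ := rfl
    rw [e, map_smul, smul_eq_mul, hΦφ, div_eq_mul_inv]
    ring
  refine coreR_lin (fun k => ((r k)⁻¹ • x k, (r k)⁻¹)) l ?_ R hR ?_ ?_
  · intro k
    rw [hlq]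
    exact div_pos (hφ k) (hr k)
  · intro k m
    rw [hlq, hlq, ← mul_div_assoc, div_le_div_iff₀ (hr k) (hr m)]
    have := hφ3 m k
    linarith
  · intro i j hij
    obtain ⟨g, v, h1, h2, h3⟩ := sep hK hKc hKi hKs r x hr hpair i j hij
    set G : E × ℝ →L[ℝ] ℝ := g.comp (ContinuousLinearMap.fst ℝ E ℝ) -
      v • ContinuousLinearMap.snd ℝ E ℝ with hG
    have hGq : ∀ k, G ((r k)⁻¹ • x k, (r k)⁻¹) = g ((r k)⁻¹ • x k) - v * (r k)⁻¹ := fun k => rfl
    refine ⟨G, ?_, ?_, fun k => ?_⟩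
    · rw [hGq, h1]
    · rw [hGq, h2]
    · rw [hGq]
      exact h3 k

/-- the bound for bodies symmetric about a point -/
theorem boundR {n : ℕ} [FiniteDimensional ℝ E] {K : Set E} (hK : Convex ℝ K) (hKc : IsCompact K)
    (hKi : (interior K).Nonempty) (c : E)
    (hKs : ∀ y ∈ K, (2 : ℝ) • c - y ∈ K) (r : Fin n → ℝ) (x : Fin n → E) (hr : ∀ i, 0 < r i)
    (hpair : ∀ i j, i ≠ j →
      ((fun y => x i + r i • y) '' K ∩ (fun y => x j + r j • y) '' K).Nonempty ∧
      interior ((fun y => x i + r i • y) '' K) ∩ interior ((fun y => x j + r j • y) '' K) = ∅)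
    (φ : E →ₗ[ℝ] ℝ) (a : ℝ) (hφ : ∀ i, 0 < φ (x i + r i • c) + a) (R : ℝ) (hR : 3 ≤ R)
    (hφ3 : ∀ i j, r i * (φ (x j + r j • c) + a) ≤ R * (r j * (φ (x i + r i • c) + a))) :
    (n : ℝ) * (R + 1) ^ Module.finrank ℝ E ≤ (3 * R - 1) ^ Module.finrank ℝ E := by
  set K' : Set E := (fun y => -c + (1 : ℝ) • y) '' K with hK'
  have hfam : ∀ i, (fun y => (x i + r i • c) + r i • y) '' K' = (fun y => x i + r i • y) '' K := by
    intro i
    rw [hK', image_image]
    congr 1
    ext y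
    module
  refine boundR0 (K := K') (homothet_convex hK _ _) ?_ (homothet_interior _ _ one_ne_zero hKi) ?_ r
    (fun i => x i + r i • c) hr ?_ φ a hφ R hR hφ3
  · exact hKc.image (by fun_prop)
  · rintro _ ⟨y, hy, rfl⟩
    refine ⟨(2 : ℝ) • c - y, hKs y hy, ?_⟩
    simp only
    module
  · intro i j hij
    rw [hfam i, hfam j]
    exact hpair i j hij

end Pool.Agent.Helper93.BP
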